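import Pool.Agent.Helper16.AZ.Stmts
import Pool.Agent.Helper37.MD.KAT

/-! Module KT1: the criterion of Katai with all the primes of one block. -/

set_option autoImplicit false

open Finset Filter MeasureTheory Topology
open scoped ComplexConjugate InnerProductSpace

namespace Pool.Agent.Helper16.AZ

open Pool.Agent.Helper16.MD (MS PB Am RW Rich kat_disj kat_pd kat_mem kat_mu kat_Am kat_B kat_sqrt)

theorem kt1_cs (f : ℕ → ℂ) (N P0 : ℕ) (B : Finset ℕ) (hP0 : 1 ≤ P0)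
    (hB : ∀ s ∈ B, P0 ≤ s) :
    ‖∑ s ∈ B, MS (fun y => f (s * y)) (N / s)‖ ^ 2 ≤ ((N : ℝ) / P0) *
      ∑ s ∈ B, ∑ t ∈ B, ‖∑ y ∈ Icc 1 (min (N / s) (N / t)),
        f (s * y) * conj (f (t * y))‖ := by
  set Y : ℕ := N / P0 with hY
  have hle : ∀ s ∈ B, N / s ≤ Y := by
    intro s hs
    exact Nat.div_le_div_left (hB s hs) hP0
  have e1 : ∀ s ∈ B, MS (fun y => f (s * y)) (N / s) =
      ∑ y ∈ Icc 1 Y, ((ArithmeticFunction.moebius y : ℤ) : ℂ) *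
        (if y ≤ N / s then f (s * y) else 0) := by
    intro s hs
    unfold MS
    have hsub : Icc 1 (N / s) ⊆ Icc 1 Y := Finset.Icc_subset_Icc_right (hle s hs)
    rw [← Finset.sum_subset hsub]
    · apply Finset.sum_congr rfl
      intro y hy
      rw [Finset.mem_Icc] at hy
      rw [if_pos hy.2]
    · intro y hy hy'
      rw [Finset.mem_Icc] at hy hy'
      rw [if_neg (by omega), mul_zero]
  rw [Finset.sum_congr rfl e1, Finset.sum_comm]
  set G : ℕ → ℂ := fun y => ∑ s ∈ B, (if y ≤ N / s then f (s * y) else 0) with hG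
  have e2 : ∑ y ∈ Icc 1 Y, ∑ s ∈ B, ((ArithmeticFunction.moebius y : ℤ) : ℂ) *
        (if y ≤ N / s then f (s * y) else 0) =
      ∑ y ∈ Icc 1 Y, ((ArithmeticFunction.moebius y : ℤ) : ℂ) * G y := by
    apply Finset.sum_congr rfl
    intro y _
    rw [hG, Finset.mul_sum]
  rw [e2]
  have h1 : ‖∑ y ∈ Icc 1 Y, ((ArithmeticFunction.moebius y : ℤ) : ℂ) * G y‖ ≤
      ∑ y ∈ Icc 1 Y, ‖G y‖ := by
    refine (norm_sum_le _ _).trans ?_
    apply Finset.sum_le_sum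
    intro y _
    rw [norm_mul]
    have := kat_mu y
    have h2 := norm_nonneg (G y)
    nlinarith
  have h2 : (∑ y ∈ Icc 1 Y, ‖G y‖) ^ 2 ≤ (Y : ℝ) * ∑ y ∈ Icc 1 Y, ‖G y‖ ^ 2 := by
    have := sq_sum_le_card_mul_sum_sq (s := Icc 1 Y) (f := fun y => ‖G y‖)
    simpa using this
  have h3 : ∑ y ∈ Icc 1 Y, ‖G y‖ ^ 2 ≤ ∑ s ∈ B, ∑ t ∈ B, ‖∑ y ∈ Icc 1 (min (N / s) (N / t)),
        f (s * y) * conj (f (t * y))‖ := by
    have e3 : ((∑ y ∈ Icc 1 Y, ‖G y‖ ^ 2 : ℝ) : ℂ) = ∑ s ∈ B, ∑ t ∈ B,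
        ∑ y ∈ Icc 1 (min (N / s) (N / t)), f (s * y) * conj (f (t * y)) := by
      have e4 : ∀ y, ((‖G y‖ ^ 2 : ℝ) : ℂ) = ∑ s ∈ B, ∑ t ∈ B,
          (if y ≤ N / s then f (s * y) else 0) *
            conj (if y ≤ N / t then f (t * y) else 0) := by
        intro y
        have e5 : ((‖G y‖ ^ 2 : ℝ) : ℂ) = G y * conj (G y) := by
          rw [Complex.mul_conj, Complex.normSq_eq_norm_sq]
        rw [e5, hG, map_sum, Finset.sum_mul_sum]
      push_cast at e4 ⊢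
      rw [Finset.sum_congr rfl (fun y _ => e4 y), Finset.sum_comm]
      apply Finset.sum_congr rfl
      intro s hs
      rw [Finset.sum_comm]
      apply Finset.sum_congr rfl
      intro t ht
      have hsub : Icc 1 (min (N / s) (N / t)) ⊆ Icc 1 Y :=
        Finset.Icc_subset_Icc_right ((min_le_left _ _).trans (hle s hs))
      symm
      rw [← Finset.sum_subset hsub]
      · apply Finset.sum_congr rfl
        intro y hy
        rw [Finset.mem_Icc] at hy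
        rw [if_pos (by omega), if_pos (by omega)]
      · intro y hy hy'
        rw [Finset.mem_Icc] at hy hy'
        by_cases c1 : y ≤ N / s
        · rw [if_neg (by omega : ¬ y ≤ N / t)]; simp
        · rw [if_neg c1, zero_mul]
    have hnn : 0 ≤ ∑ y ∈ Icc 1 Y, ‖G y‖ ^ 2 := by positivity
    have e6 : ∑ y ∈ Icc 1 Y, ‖G y‖ ^ 2 = ‖((∑ y ∈ Icc 1 Y, ‖G y‖ ^ 2 : ℝ) : ℂ)‖ := by
      rw [Complex.norm_real, Real.norm_of_nonneg hnn]
    rw [e6, e3]
    refine (norm_sum_le _ _).trans ?_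
    apply Finset.sum_le_sum
    intro s _
    exact norm_sum_le _ _
  have h4 : (Y : ℝ) ≤ (N : ℝ) / P0 := Nat.cast_div_le
  have h5 : 0 ≤ ∑ y ∈ Icc 1 Y, ‖G y‖ ^ 2 := by positivity
  calc ‖∑ y ∈ Icc 1 Y, ((ArithmeticFunction.moebius y : ℤ) : ℂ) * G y‖ ^ 2
      ≤ (∑ y ∈ Icc 1 Y, ‖G y‖) ^ 2 := by
        apply pow_le_pow_left₀ (norm_nonneg _) h1
    _ ≤ (Y : ℝ) * ∑ y ∈ Icc 1 Y, ‖G y‖ ^ 2 := h2
    _ ≤ ((N : ℝ) / P0) * ∑ y ∈ Icc 1 Y, ‖G y‖ ^ 2 := mul_le_mul_of_nonneg_right h4 h5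
    _ ≤ _ := mul_le_mul_of_nonneg_left h3 (by positivity)

theorem kt1_block (η : ℝ) (i : ℕ) (f : ℕ → ℂ) (hη : 0 < η)
    (hfr : ∃ᶠ N : ℕ in atTop, (∑ s ∈ PB 1 i, 1 / (s : ℝ)) * (η * N / 4) ≤
      ‖∑ s ∈ PB 1 i, MS (fun y => f (s * y)) (N / s)‖) (Γ : ℕ → ℕ → ℝ)
    (hΓ : ∀ P ∈ PB 1 i, ∀ P' ∈ PB 1 i, 0 ≤ Γ P P' ∧
      ∀ ε : ℝ, 0 < ε → ∃ M₀ : ℕ, ∀ M : ℕ, M₀ ≤ M →
      ‖∑ y ∈ Icc 1 M, f (P * y) * conj (f (P' * y))‖ ≤ (Γ P P' + ε) * M) :
    (η / 32) ^ 2 * ((PB 1 i).card : ℝ) ^ 2 ≤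
      ∑ s ∈ PB 1 i, ∑ t ∈ PB 1 i, Γ s t := by
  classical
  set B := PB 1 i with hB
  set P0 : ℕ := 2 ^ i with hP0
  have hP01 : 1 ≤ P0 := Nat.one_le_two_pow
  have hP0R : (0 : ℝ) < P0 := by exact_mod_cast hP01
  have hpr : ∀ s ∈ B, P0 ≤ s ∧ s ≤ 2 * P0 ∧ 1 ≤ s := by
    intro s hs
    obtain ⟨a1, a2, a3, a4⟩ := kat_mem hs
    refine ⟨a2.le, ?_, a1.pos⟩
    rw [hP0]
    rw [pow_succ] at a3
    omega
  -- for every e > 0
  have main : ∀ e : ℝ, 0 < e → (η / 32) ^ 2 * (B.card : ℝ) ^ 2 ≤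
      ∑ s ∈ B, ∑ t ∈ B, (Γ s t + e) := by
    intro e he
    have hM : ∀ x : ℕ × ℕ, ∃ M₀ : ℕ, x ∈ B ×ˢ B → ∀ M : ℕ, M₀ ≤ M →
        ‖∑ y ∈ Icc 1 M, f (x.1 * y) * conj (f (x.2 * y))‖ ≤ (Γ x.1 x.2 + e) * M := by
      intro x
      by_cases hx : x ∈ B ×ˢ B
      · rw [Finset.mem_product] at hx
        obtain ⟨_, h2⟩ := hΓ x.1 hx.1 x.2 hx.2
        obtain ⟨M₀, hM₀⟩ := h2 e he
        exact ⟨M₀, fun _ => hM₀⟩
      · exact ⟨0, fun h => absurd h hx⟩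
    choose M₀ hM₀ using hM
    set MM : ℕ := (B ×ˢ B).sup M₀ with hMM
    obtain ⟨N, hN, hN1⟩ := (hfr.and_eventually (eventually_ge_atTop (2 * P0 * MM + 1))).exists
    have hNR : (0 : ℝ) < N := by exact_mod_cast (by omega : 0 < N)
    have hcs := kt1_cs f N P0 B hP01 (fun s hs => (hpr s hs).1)
    have hterm : ∀ s ∈ B, ∀ t ∈ B, ‖∑ y ∈ Icc 1 (min (N / s) (N / t)),
        f (s * y) * conj (f (t * y))‖ ≤ (Γ s t + e) * ((N : ℝ) / P0) := by
      intro s hs t ht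
      obtain ⟨s1, s2, s3⟩ := hpr s hs
      obtain ⟨t1, t2, t3⟩ := hpr t ht
      have hst : (s, t) ∈ B ×ˢ B := Finset.mem_product.2 ⟨hs, ht⟩
      have hle1 : MM ≤ N / s := by
        rw [Nat.le_div_iff_mul_le (by omega)]
        calc MM * s ≤ MM * (2 * P0) := Nat.mul_le_mul_left _ s2
          _ = 2 * P0 * MM := by ring
          _ ≤ N := by omega
      have hle2 : MM ≤ N / t := by
        rw [Nat.le_div_iff_mul_le (by omega)]
        calc MM * t ≤ MM * (2 * P0) := Nat.mul_le_mul_left _ t2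
          _ = 2 * P0 * MM := by ring
          _ ≤ N := by omega
      have hle : M₀ (s, t) ≤ min (N / s) (N / t) :=
        (Finset.le_sup (f := M₀) hst).trans (le_min hle1 hle2)
      refine (hM₀ (s, t) hst _ hle).trans ?_
      have hg0 : 0 ≤ Γ s t + e := by
        have := (hΓ s hs t ht).1
        linarith
      apply mul_le_mul_of_nonneg_left _ hg0
      have h1 : (min (N / s) (N / t) : ℕ) ≤ N / P0 :=
        (min_le_left _ _).trans (Nat.div_le_div_left s1 hP01)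
      have h2 : ((min (N / s) (N / t) : ℕ) : ℝ) ≤ ((N / P0 : ℕ) : ℝ) := by exact_mod_cast h1
      exact h2.trans Nat.cast_div_le
    have hsum : ∑ s ∈ B, ∑ t ∈ B, ‖∑ y ∈ Icc 1 (min (N / s) (N / t)),
        f (s * y) * conj (f (t * y))‖ ≤
        (∑ s ∈ B, ∑ t ∈ B, (Γ s t + e)) * ((N : ℝ) / P0) := by
      rw [Finset.sum_mul]
      apply Finset.sum_le_sum
      intro s hs
      rw [Finset.sum_mul]
      apply Finset.sum_le_sum
      intro t ht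
      exact hterm s hs t ht
    -- lower bound
    have hA : (B.card : ℝ) / (2 * P0) ≤ ∑ s ∈ B, 1 / (s : ℝ) := by
      have : ∑ s ∈ B, (1 : ℝ) / (2 * P0) ≤ ∑ s ∈ B, 1 / (s : ℝ) := by
        apply Finset.sum_le_sum
        intro s hs
        obtain ⟨s1, s2, s3⟩ := hpr s hs
        apply one_div_le_one_div_of_le
        · exact_mod_cast s3
        · exact_mod_cast s2
      rw [Finset.sum_const, nsmul_eq_mul, mul_one_div] at this
      exact this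
    have hlow : (B.card : ℝ) / (2 * P0) * (η * N / 4) ≤
        ‖∑ s ∈ B, MS (fun y => f (s * y)) (N / s)‖ :=
      (mul_le_mul_of_nonneg_right hA (by positivity)).trans hN
    have hsq : ((B.card : ℝ) / (2 * P0) * (η * N / 4)) ^ 2 ≤
        ((N : ℝ) / P0) * ((∑ s ∈ B, ∑ t ∈ B, (Γ s t + e)) * ((N : ℝ) / P0)) := by
      refine (pow_le_pow_left₀ (by positivity) hlow 2).trans (hcs.trans ?_)
      exact mul_le_mul_of_nonneg_left hsum (by positivity)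
    have e1 : ((B.card : ℝ) / (2 * P0) * (η * N / 4)) ^ 2 =
        ((N : ℝ) / P0) ^ 2 * ((η / 8) ^ 2 * (B.card : ℝ) ^ 2) := by
      field_simp; ring
    have e2 : ((N : ℝ) / P0) * ((∑ s ∈ B, ∑ t ∈ B, (Γ s t + e)) * ((N : ℝ) / P0)) =
        ((N : ℝ) / P0) ^ 2 * (∑ s ∈ B, ∑ t ∈ B, (Γ s t + e)) := by ring
    rw [e1, e2] at hsq
    have h8 := le_of_mul_le_mul_left hsq (by positivity)
    have h9 : (η / 32) ^ 2 * (B.card : ℝ) ^ 2 ≤ (η / 8) ^ 2 * (B.card : ℝ) ^ 2 := by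
      apply mul_le_mul_of_nonneg_right _ (by positivity)
      apply pow_le_pow_left₀ (by positivity)
      linarith
    exact h9.trans h8
  apply le_of_forall_pos_le_add
  intro e he
  rcases Nat.eq_zero_or_pos B.card with h0 | h0
  · have hBe : B = ∅ := Finset.card_eq_zero.1 h0
    rw [hBe]; simp; exact he.le
  have hc : (0 : ℝ) < (B.card : ℝ) ^ 2 := by
    have : (0 : ℝ) < B.card := by exact_mod_cast h0
    positivity
  have h1 := main (e / (B.card : ℝ) ^ 2) (by positivity)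
  have h2 : ∑ s ∈ B, ∑ t ∈ B, (Γ s t + e / (B.card : ℝ) ^ 2) =
      ∑ s ∈ B, ∑ t ∈ B, Γ s t + e := by
    simp_rw [Finset.sum_add_distrib, Finset.sum_const, nsmul_eq_mul]
    field_simp
  rw [h2] at h1
  exact h1

theorem st_KT1 (hTKA : Pool.Agent.Helper16.MD.ST_TKA) : ST_KT1 := by
  classical
  intro η R f hη hf hR hA1 hfr
  set S := R.biUnion (PB 1) with hS
  have hprime : ∀ p ∈ S, p.Prime := by
    intro p hp
    obtain ⟨i, _, hpi⟩ := Finset.mem_biUnion.1 hp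
    exact (kat_mem hpi).1
  obtain ⟨C, hC0, hC⟩ := hTKA S hprime
  rw [kat_Am] at hA1
  set A := ∑ p ∈ S, 1 / (p : ℝ) with hAd
  have hB1 := kat_B η 1 R hη hR
  have hs1 := kat_sqrt hη hA1
  have hAp : 0 < A := lt_of_lt_of_le (by positivity) hA1
  have hblocks : A = ∑ i ∈ R, ∑ s ∈ PB 1 i, 1 / (s : ℝ) := by
    rw [hAd, hS, Finset.sum_biUnion (kat_pd 1 R)]
  have hex : ∃ i ∈ R, ∃ᶠ N : ℕ in atTop,
      (∑ s ∈ PB 1 i, 1 / (s : ℝ)) * (η * N / 4) ≤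
      ‖∑ s ∈ PB 1 i, MS (fun y => f (s * y)) (N / s)‖ := by
    by_contra hcon
    have hev : ∀ᶠ N : ℕ in atTop, ∀ i ∈ R,
        ‖∑ s ∈ PB 1 i, MS (fun y => f (s * y)) (N / s)‖ ≤
        (∑ s ∈ PB 1 i, 1 / (s : ℝ)) * (η * N / 4) := by
      rw [eventually_all_finset]
      intro i hi
      have h1 : ¬ ∃ᶠ N : ℕ in atTop, (∑ s ∈ PB 1 i, 1 / (s : ℝ)) * (η * N / 4) ≤
          ‖∑ s ∈ PB 1 i, MS (fun y => f (s * y)) (N / s)‖ := by
        intro h; exact hcon ⟨i, hi, h⟩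
      rw [not_frequently] at h1
      filter_upwards [h1] with N hN
      exact (not_le.1 hN).le
    obtain ⟨N0, hN0⟩ := exists_nat_gt ((4 * C / (A * η)) ^ 2)
    obtain ⟨N, hN1, hN2, hN3⟩ := (hfr.and_eventually
      (hev.and (eventually_ge_atTop (N0 + 1)))).exists
    have hNR : (0 : ℝ) < N := by exact_mod_cast (by omega : 0 < N)
    have hN0N : (N0 : ℝ) ≤ N := by exact_mod_cast (by omega : N0 ≤ N)
    have hsq : 4 * C / (A * η) < Real.sqrt N := by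
      apply Real.lt_sqrt_of_sq_lt
      linarith
    have hsqpos : 0 < Real.sqrt N := Real.sqrt_pos.2 hNR
    have hmul : Real.sqrt N * Real.sqrt N = N := Real.mul_self_sqrt hNR.le
    have hCN : C * Real.sqrt N < A * η * N / 4 := by
      rw [div_lt_iff₀ (by positivity)] at hsq
      have : 4 * C * Real.sqrt N < Real.sqrt N * (A * η) * Real.sqrt N :=
        mul_lt_mul_of_pos_right hsq hsqpos
      nlinarith
    have hTK := hC f N hf
    set X : ℂ := ∑ p ∈ S, MS (fun y => f (p * y)) (N / p) with hX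
    have hXsum : X = ∑ i ∈ R, ∑ s ∈ PB 1 i, MS (fun y => f (s * y)) (N / s) := by
      rw [hX, hS, Finset.sum_biUnion (kat_pd 1 R)]
    have hXle : ‖X‖ ≤ A * (η * N / 4) := by
      rw [hXsum, hblocks, Finset.sum_mul]
      exact (norm_sum_le _ _).trans (Finset.sum_le_sum fun i hi => hN2 i hi)
    have hnorm : ‖((A : ℝ) : ℂ) * MS f N‖ = A * ‖MS f N‖ := by
      rw [norm_mul, Complex.norm_real, Real.norm_of_nonneg hAp.le]
    have htri : A * ‖MS f N‖ ≤ ‖((A : ℝ) : ℂ) * MS f N + X‖ + ‖X‖ := by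
      rw [← hnorm]
      have := norm_sub_le (((A : ℝ) : ℂ) * MS f N + X) X
      rwa [add_sub_cancel_right] at this
    have hlowA : A * (η * N) ≤ A * ‖MS f N‖ := mul_le_mul_of_nonneg_left hN1 hAp.le
    have hE : (N : ℝ) * (Real.sqrt A + ∑ p ∈ S, 1 / (p : ℝ) ^ 2) ≤ N * (A * η / 2) := by
      apply mul_le_mul_of_nonneg_left _ hNR.le
      have h3 : 0 < A * η := by positivity
      have h4 : Real.sqrt A + ∑ p ∈ S, 1 / (p : ℝ) ^ 2 ≤ A * (η / 8) + A * (η / 24) :=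
        add_le_add hs1 hB1
      nlinarith
    have hTK2 : ‖((A : ℝ) : ℂ) * MS f N + X‖ ≤ N * (A * η / 2) + C * Real.sqrt N :=
      hTK.trans (by linarith)
    nlinarith
  obtain ⟨i, hi, hfreq⟩ := hex
  exact ⟨i, hi, fun Γ hΓ => kt1_block η i f hη hfreq Γ hΓ⟩

end Pool.Agent.Helper16.AZ
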